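import Pool.Agent.Helper6.IP.Basic

/-!
# Evaluation of a directed acyclic graph by a branching program which follows a pebbling
-/

namespace Pool.Agent.Helper98.IP

open Pool.Agent.Helper6.IP

/-! ## Programs with an arbitrary finite set of states -/

section prog

variable {C A S : Type}

/-- One step of a program whose states form the type `S`. -/
def move (act : S → (C × (A → S)) ⊕ A) (I : C → A) (s : S) : S :=
  (act s).elim (fun t => t.2 (I t.1)) (fun _ => s)

/-- From the state `s` the program outputs `a` and queries only cells in `R`. -/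
def Good (act : S → (C × (A → S)) ⊕ A) (I : C → A) (R : Set C) (a : A) (s : S) : Prop :=
  (∃ m, act ((move act I)^[m] s) = Sum.inr a) ∧
    ∀ m c nx, act ((move act I)^[m] s) = Sum.inl (c, nx) → c ∈ R

theorem good_final {act : S → (C × (A → S)) ⊕ A} {I : C → A} {R : Set C} {a : A} {s : S}
    (h : act s = Sum.inr a) : Good act I R a s := by
  have h1 : ∀ m, (move act I)^[m] s = s := by
    intro m
    induction m with
    | zero => rfl
    | succ m ih => rw [Function.iterate_succ_apply', ih, move, h, Sum.elim_inr]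
  refine ⟨⟨0, h⟩, fun m c nx hm => ?_⟩
  rw [h1, h] at hm
  exact absurd hm (by simp)

theorem good_step {act : S → (C × (A → S)) ⊕ A} {I : C → A} {R : Set C} {a : A} {s : S} {c : C} {nx : A → S}
    (h : act s = Sum.inl (c, nx)) (hc : c ∈ R) (hg : Good act I R a (nx (I c))) : Good act I R a s := by
  have h1 : move act I s = nx (I c) := by rw [move, h, Sum.elim_inl]
  obtain ⟨⟨m, hm⟩, h2⟩ := hg
  refine ⟨⟨m + 1, by rw [Function.iterate_succ_apply, h1]; exact hm⟩, fun m' c' nx' hm' => ?_⟩
  rcases m' with _ | m'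
  · rw [Function.iterate_zero_apply, h] at hm'
    have := (Prod.mk.inj (Sum.inl_injective hm')).1
    rw [← this]
    exact hc
  · rw [Function.iterate_succ_apply, h1] at hm'
    exact h2 m' c' nx' hm'

/-- A program with a finite type of states is a branching program. -/
theorem exists_BP [Fintype S] (act : S → (C × (A → S)) ⊕ A) (s₀ : S) :
    ∃ B : BP C A (Fintype.card S), ∀ (I : C → A) (R : Set C) (a : A), Good act I R a s₀ →
      B.Outputs I a ∧ ∀ c, B.Asks I c → c ∈ R := by
  classical
  let e := Fintype.equivFin S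
  let B : BP C A (Fintype.card S) :=
    { start := e s₀
      act := fun q => (act (e.symm q)).map (fun t => (t.1, fun a => e (t.2 a))) id }
  have hst : ∀ (I : C → A) (s : S), B.step I (e s) = e (move act I s) := by
    intro I s
    unfold BP.step move
    show ((act (e.symm (e s))).map _ id).elim _ _ = _
    rw [Equiv.symm_apply_apply]
    rcases act s with t | a <;> rfl
  have hit : ∀ (I : C → A) (m : ℕ), (B.step I)^[m] (e s₀) = e ((move act I)^[m] s₀) := by
    intro I m
    induction m with
    | zero => rfl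
    | succ m ih => rw [Function.iterate_succ_apply', ih, hst, Function.iterate_succ_apply']
  have hact : ∀ s, B.act (e s) = (act s).map (fun t => (t.1, fun a => e (t.2 a))) id := by
    intro s
    show (act (e.symm (e s))).map _ id = _
    rw [Equiv.symm_apply_apply]
  refine ⟨B, fun I R a hg => ⟨?_, ?_⟩⟩
  · obtain ⟨⟨m, hm⟩, -⟩ := hg
    refine ⟨m, ?_⟩
    show B.act ((B.step I)^[m] (e s₀)) = _
    rw [hit, hact, hm]
    rfl
  · rintro c ⟨m, nx, hm⟩
    change B.act ((B.step I)^[m] (e s₀)) = _ at hm
    rw [hit, hact] at hm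
    rcases h : act ((move act I)^[m] s₀) with t | a'
    · rw [h] at hm
      have h1 : t.1 = c := (Prod.mk.inj (Sum.inl_injective hm)).1
      rw [← h1]
      exact hg.2 m t.1 t.2 h
    · rw [h] at hm
      exact absurd hm (by simp)

end prog

/-! ## The memory -/

section mem

variable {V A : Type}

/-- The memory which contains the values `a v` for `v ∈ X`. -/
noncomputable def enc (r : ℕ) (X : Finset V) (a : V → A) : Fin r → Option (V × A) :=
  fun i => (X.toList[(i : ℕ)]?).map (fun v => (v, a v))

open Classical in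
/-- The nodes in the memory. -/
noncomputable def dom [Fintype V] {r : ℕ} (m : Fin r → Option (V × A)) : Finset V :=
  Finset.univ.filter (fun v => ∃ i a, m i = some (v, a))

open Classical in
/-- The value of a node in the memory. -/
noncomputable def look [Zero A] {r : ℕ} (m : Fin r → Option (V × A)) (v : V) : A :=
  if h : ∃ a i, m i = some (v, a) then h.choose else 0

theorem enc_iff {r : ℕ} {X : Finset V} (hX : X.card ≤ r) (a : V → A) (v : V) (b : A) :
    (∃ i, enc r X a i = some (v, b)) ↔ v ∈ X ∧ b = a v := by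
  constructor
  · rintro ⟨i, hi⟩
    unfold enc at hi
    rw [Option.map_eq_some_iff] at hi
    obtain ⟨u, hu, h⟩ := hi
    have h1 := Prod.mk.inj h
    refine ⟨?_, ?_⟩
    · rw [← h1.1]
      exact Finset.mem_toList.1 (List.mem_of_getElem? hu)
    · rw [← h1.2, h1.1]
  · rintro ⟨hv, rfl⟩
    obtain ⟨i, hi, hi'⟩ := List.getElem_of_mem (Finset.mem_toList.2 hv)
    refine ⟨⟨i, ?_⟩, ?_⟩
    · rw [Finset.length_toList] at hi
      omega
    · unfold enc
      rw [Option.map_eq_some_iff]
      exact ⟨v, by rw [List.getElem?_eq_getElem hi, hi'], rfl⟩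

theorem dom_enc [Fintype V] {r : ℕ} {X : Finset V} (hX : X.card ≤ r) (a : V → A) : dom (enc r X a) = X := by
  classical
  ext v
  simp only [dom, Finset.mem_filter]
  constructor
  · rintro ⟨-, i, b, h⟩
    exact ((enc_iff hX a v b).1 ⟨i, h⟩).1
  · intro hv
    obtain ⟨i, hi⟩ := (enc_iff hX a v (a v)).2 ⟨hv, rfl⟩
    exact ⟨Finset.mem_univ _, i, a v, hi⟩

theorem look_enc [Zero A] {r : ℕ} {X : Finset V} (hX : X.card ≤ r) (a : V → A) {v : V} (hv : v ∈ X) :
    look (enc r X a) v = a v := by
  have h : ∃ b i, enc r X a i = some (v, b) := by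
    obtain ⟨i, hi⟩ := (enc_iff hX a v (a v)).2 ⟨hv, rfl⟩
    exact ⟨a v, i, hi⟩
  unfold look
  rw [dif_pos h]
  exact ((enc_iff hX a v _).1 h.choose_spec).2

end mem

/-! ## The strategy -/

section strat

variable (G : Dag)

/-- From the nodes `X` the root is reached in `n` rounds, in each of which one node is pebbled and then some pebbles are
removed; there are at most `r` pebbles before each round. -/
def Rounds (r : ℕ) : ℕ → Finset G.V → Prop
  | 0, X => X.card ≤ r ∧ ∀ e, G.head e = G.root → G.tail e ∈ X
  | n + 1, X => X.card ≤ r ∧ ∃ v, (∀ e, G.head e = v → G.tail e ∈ X) ∧ ∃ X' ⊆ insert v X, Rounds r n X'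

/-- The root is reached from `X`. -/
def Live (r : ℕ) (X : Finset G.V) : Prop := ∃ n, Rounds G r n X

variable {G}

theorem Rounds.card_le {r n : ℕ} {X : Finset G.V} (h : Rounds G r n X) : X.card ≤ r := by
  rcases n with _ | n
  · exact h.1
  · exact h.1

theorem live_of_peb {q : ℕ} {X : Finset G.V} (h : G.Peb q X) :
    (G.root ∈ X → Live G (q - 1) ∅) ∧ ((∃ Y ⊆ X, Live G (q - 1) Y) → Live G (q - 1) ∅) := by
  induction h with
  | empty =>
    refine ⟨fun h => absurd h (Finset.notMem_empty _), ?_⟩
    rintro ⟨Y, hY, h⟩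
    rw [Finset.subset_empty.1 hY] at h
    exact h
  | place X v _ hv hc ih =>
    by_cases hvX : v ∈ X
    · rw [Finset.insert_eq_of_mem hvX]
      exact ih
    rw [Finset.card_insert_of_notMem hvX] at hc
    have hX : X.card ≤ q - 1 := by omega
    refine ⟨fun hr => ?_, ?_⟩
    · rcases Finset.mem_insert.1 hr with hr | hr
      · exact ih.2 ⟨X, subset_rfl, 0, hX, fun e he => hv e (he.trans hr)⟩
      · exact ih.1 hr
    · rintro ⟨Y, hY, n, hn⟩
      exact ih.2 ⟨X, subset_rfl, n + 1, hX, v, hv, Y, hY, hn⟩
  | remove X Y _ hYX ih =>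
    refine ⟨fun hr => ih.1 (hYX hr), ?_⟩
    rintro ⟨Z, hZ, h⟩
    exact ih.2 ⟨Z, hZ.trans hYX, h⟩

theorem live_empty {q : ℕ} (h : G.Pebbles q) : Live G (q - 1) ∅ := by
  obtain ⟨X, hX, hr⟩ := h
  exact (live_of_peb hX).1 hr

theorem pos_of_pebbles {q : ℕ} (h : G.Pebbles q) : 1 ≤ q := by
  obtain ⟨X, hX, hr⟩ := h
  by_contra hq
  have hq0 : q = 0 := by omega
  subst hq0
  have key : ∀ Y, G.Peb 0 Y → Y = ∅ := by
    intro Y hY
    induction hY with
    | empty => rfl
    | place X v _ _ hc _ => exact Finset.card_eq_zero.1 (Nat.le_zero.1 hc)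
    | remove X Y _ hYX ih => rw [ih] at hYX; exact Finset.subset_empty.1 hYX
  rw [key X hX] at hr
  exact absurd hr (Finset.notMem_empty _)

open Classical in
/-- The number of rounds. -/
noncomputable def rnk (r : ℕ) (X : Finset G.V) : ℕ := if h : Live G r X then Nat.find h else 0

theorem exists_strategy (r : ℕ) : ∃ f : Finset G.V → Bool × G.V × Finset G.V, ∀ X, Live G r X →
    (∀ e, G.head e = (f X).2.1 → G.tail e ∈ X) ∧
    (((f X).1 = true ∧ (f X).2.1 = G.root) ∨ ((f X).1 = false ∧ (f X).2.2 ⊆ insert (f X).2.1 X ∧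
      Live G r (f X).2.2 ∧ rnk r (f X).2.2 < rnk r X)) := by
  classical
  have key : ∀ X, ∃ t : Bool × G.V × Finset G.V, Live G r X →
    (∀ e, G.head e = t.2.1 → G.tail e ∈ X) ∧
    ((t.1 = true ∧ t.2.1 = G.root) ∨ (t.1 = false ∧ t.2.2 ⊆ insert t.2.1 X ∧
      Live G r t.2.2 ∧ rnk r t.2.2 < rnk r X)) := by
    intro X
    by_cases h : Live G r X
    · have h1 : Rounds G r (rnk r X) X := by
        unfold rnk
        rw [dif_pos h]
        exact Nat.find_spec h
      rcases hn : rnk r X with _ | n
      · rw [hn] at h1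
        exact ⟨(true, G.root, ∅), fun _ => ⟨h1.2, Or.inl ⟨rfl, rfl⟩⟩⟩
      · rw [hn] at h1
        obtain ⟨-, v, hv, X', hX', hR⟩ := h1
        refine ⟨(false, v, X'), fun _ => ⟨hv, Or.inr ⟨rfl, hX', ⟨n, hR⟩, ?_⟩⟩⟩
        have h2 : Live G r X' := ⟨n, hR⟩
        have h3 : rnk r X' ≤ n := by
          unfold rnk
          rw [dif_pos h2]
          exact Nat.find_min' h2 hR
        exact Nat.lt_succ_of_le h3
    · exact ⟨(true, G.root, ∅), fun h' => absurd h' h⟩
  exact ⟨fun X => (key X).choose, fun X => (key X).choose_spec⟩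

end strat

/-! ## The slots of a node -/

section slots

variable {G : Dag}

open Classical in
/-- The slots of a node. -/
noncomputable def slots (v : G.V) : List G.Slot := (Finset.univ.filter (fun s : G.Slot => G.own s = v)).toList

theorem mem_slots {v : G.V} {s : G.Slot} : s ∈ slots v ↔ G.own s = v := by
  unfold slots
  rw [Finset.mem_toList, Finset.mem_filter]
  exact and_iff_right (Finset.mem_univ _)

theorem slots_pos (v : G.V) : 0 < (slots v).length := by
  classical
  rw [List.length_pos_iff_exists_mem]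
  by_cases h : ∃ e, G.head e = v
  · obtain ⟨e, he⟩ := h
    exact ⟨Sum.inr e, mem_slots.2 he⟩
  · exact ⟨Sum.inl ⟨v, fun e he => h ⟨e, he⟩⟩, mem_slots.2 rfl⟩

theorem slots_le (v : G.V) : (slots v).length ≤ Fintype.card G.E + 1 := by
  classical
  unfold slots
  rw [Finset.length_toList, ← Fintype.card_option]
  refine Finset.card_le_card_of_injOn (t := Finset.univ)
    (fun s : G.Slot => s.elim (fun _ => (none : Option G.E)) (fun e => some e))
    (fun _ _ => Finset.mem_coe.2 (Finset.mem_univ _)) ?_
  intro s hs s' hs' h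
  have h1 : G.own s = v := (Finset.mem_filter.1 (Finset.mem_coe.1 hs)).2
  have h2 : G.own s' = v := (Finset.mem_filter.1 (Finset.mem_coe.1 hs')).2
  rcases s with w | e <;> rcases s' with w' | e'
  · exact congrArg Sum.inl (Subtype.ext (h1.trans h2.symm))
  · exact absurd h (by simp)
  · exact absurd h (by simp)
  · exact congrArg Sum.inr (Option.some_injective _ h)

theorem sum_slots {A : Type} [AddCommGroup A] (I : G.Cell A → A) (v : G.V) :
    ((slots v).map (fun s => I (rc I s))).sum = G.val I v := by
  classical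
  rw [val_eq]
  unfold slots
  rw [Finset.sum_map_toList]

end slots

/-! ## The program -/

section program

variable {G : Dag} {A : Type} [AddCommGroup A]

/-- The cell of a slot, as read from the memory. -/
noncomputable def cellOf {r : ℕ} (m : Fin r → Option (G.V × A)) : G.Slot → G.Cell A :=
  Sum.elim (fun w => Sum.inl w) (fun e => Sum.inr (e, look m (G.tail e)))

/-- The states: a memory, a running sum and a counter, or an output. -/
abbrev State (G : Dag) (A : Type) (r : ℕ) : Type :=
  ((Fin r → Option (G.V × A)) × A × Fin (Fintype.card G.E + 1)) ⊕ A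

/-- The state after the answer `b`. -/
noncomputable def next (f : Finset G.V → Bool × G.V × Finset G.V) {r : ℕ} (m : Fin r → Option (G.V × A)) (s : A)
    (i : Fin (Fintype.card G.E + 1)) (b : A) : State G A r :=
  if (i : ℕ) + 1 < (slots (f (dom m)).2.1).length then Sum.inl (m, s + b, Fin.ofNat _ (i + 1))
  else if (f (dom m)).1 = true then Sum.inr (s + b)
  else Sum.inl (enc r (f (dom m)).2.2 (Function.update (look m) (f (dom m)).2.1 (s + b)), 0, 0)

/-- The program. -/
noncomputable def act (f : Finset G.V → Bool × G.V × Finset G.V) (r : ℕ) :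
    State G A r → (G.Cell A × (A → State G A r)) ⊕ A :=
  Sum.elim
    (fun t => ((slots (f (dom t.1)).2.1)[(t.2.2 : ℕ)]?).elim (Sum.inr 0)
      (fun σ => Sum.inl (cellOf t.1 σ, next f t.1 t.2.1 t.2.2)))
    (fun a => Sum.inr a)

theorem act_some {f : Finset G.V → Bool × G.V × Finset G.V} {r : ℕ} {m : Fin r → Option (G.V × A)} {s : A}
    {i : Fin (Fintype.card G.E + 1)} (hi : (i : ℕ) < (slots (f (dom m)).2.1).length) :
    act f r (Sum.inl (m, s, i)) = Sum.inl (cellOf m (slots (f (dom m)).2.1)[(i : ℕ)], next f m s i) := by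
  show ((slots (f (dom m)).2.1)[(i : ℕ)]?).elim (Sum.inr 0)
      (fun σ => Sum.inl (cellOf m σ, next f m s i)) = _
  rw [List.getElem?_eq_getElem hi]
  rfl

theorem good_main {r : ℕ} {f : Finset G.V → Bool × G.V × Finset G.V}
    (hf : ∀ X, Live G r X → (∀ e, G.head e = (f X).2.1 → G.tail e ∈ X) ∧
    (((f X).1 = true ∧ (f X).2.1 = G.root) ∨ ((f X).1 = false ∧ (f X).2.2 ⊆ insert (f X).2.1 X ∧
      Live G r (f X).2.2 ∧ rnk r (f X).2.2 < rnk r X))) (I : G.Cell A → A) :
    ∀ (n : ℕ) (m : Fin r → Option (G.V × A)), rnk r (dom m) = n → Live G r (dom m) →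
      (∀ v ∈ dom m, look m v = G.val I v) →
      Good (act f r) I (Set.range (rc I)) (G.val I G.root) (Sum.inl (m, 0, 0)) := by
  intro n
  induction n using Nat.strong_induction_on with
  | _ n IH =>
  intro m hn hL hm
  obtain ⟨hpre, hcase⟩ := hf _ hL
  -- the inner induction
  have inner : ∀ (j : ℕ) (i : Fin (Fintype.card G.E + 1)) (s : A), (slots (f (dom m)).2.1).length = i + (j + 1) →
      s = (((slots (f (dom m)).2.1).take i).map (fun σ => I (rc I σ))).sum →
      Good (act f r) I (Set.range (rc I)) (G.val I G.root) (Sum.inl (m, s, i)) := by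
    intro j
    induction j with
    | zero =>
      intro i s hlen hs
      have hi : (i : ℕ) < (slots (f (dom m)).2.1).length := by omega
      have hc : cellOf m (slots (f (dom m)).2.1)[(i : ℕ)] = rc I (slots (f (dom m)).2.1)[(i : ℕ)] := by
        have hmem : (slots (f (dom m)).2.1)[(i : ℕ)] ∈ slots (f (dom m)).2.1 := List.getElem_mem hi
        generalize (slots (f (dom m)).2.1)[(i : ℕ)] = σ at hmem
        rcases σ with w | e
        · rfl
        · show (Sum.inr (e, look m (G.tail e)) : G.Cell A) = Sum.inr (e, G.val I (G.tail e))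
          rw [hm _ (hpre e (mem_slots.1 hmem))]
      refine good_step (act_some hi) ?_ ?_
      · rw [hc]
        exact ⟨_, rfl⟩
      rw [hc]
      have hsum : s + I (rc I (slots (f (dom m)).2.1)[(i : ℕ)]) = G.val I (f (dom m)).2.1 := by
        rw [← sum_slots, hs]
        have htake : (slots (f (dom m)).2.1) =
            (slots (f (dom m)).2.1).take i ++ [(slots (f (dom m)).2.1)[(i : ℕ)]] := by
          rw [List.take_append_getElem, List.take_of_length_le (by omega)]
        conv_rhs => rw [htake]
        rw [List.map_append, List.sum_append, List.map_singleton, List.sum_singleton]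
      have hnl : ¬ ((i : ℕ) + 1 < (slots (f (dom m)).2.1).length) := by omega
      unfold next
      rw [if_neg hnl, hsum]
      rcases hcase with ⟨h1, h2⟩ | ⟨h1, h2, h3, h4⟩
      · rw [if_pos h1]
        refine good_final ?_
        show Sum.inr (G.val I (f (dom m)).2.1) = _
        rw [h2]
      · rw [if_neg (by rw [h1]; exact Bool.false_ne_true)]
        obtain ⟨n', hn'⟩ := h3
        have hdom := dom_enc (A := A) hn'.card_le (Function.update (look m) (f (dom m)).2.1
          (G.val I (f (dom m)).2.1))
        refine IH (rnk r (f (dom m)).2.2) (hn ▸ h4) _ ?_ ?_ ?_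
        · rw [hdom]
        · rw [hdom]
          exact ⟨n', hn'⟩
        · rw [hdom]
          intro v hv
          rw [look_enc hn'.card_le _ hv]
          by_cases hvt : v = (f (dom m)).2.1
          · rw [hvt, Function.update_self]
          · rw [Function.update_of_ne hvt]
            exact hm v ((Finset.mem_insert.1 (h2 hv)).resolve_left hvt)
    | succ j ih =>
      intro i s hlen hs
      have hi : (i : ℕ) < (slots (f (dom m)).2.1).length := by omega
      have hc : cellOf m (slots (f (dom m)).2.1)[(i : ℕ)] = rc I (slots (f (dom m)).2.1)[(i : ℕ)] := by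
        have hmem : (slots (f (dom m)).2.1)[(i : ℕ)] ∈ slots (f (dom m)).2.1 := List.getElem_mem hi
        generalize (slots (f (dom m)).2.1)[(i : ℕ)] = σ at hmem
        rcases σ with w | e
        · rfl
        · show (Sum.inr (e, look m (G.tail e)) : G.Cell A) = Sum.inr (e, G.val I (G.tail e))
          rw [hm _ (hpre e (mem_slots.1 hmem))]
      refine good_step (act_some hi) ?_ ?_
      · rw [hc]
        exact ⟨_, rfl⟩
      rw [hc]
      have hnl : (i : ℕ) + 1 < (slots (f (dom m)).2.1).length := by omega
      unfold next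
      rw [if_pos hnl]
      have hcard := slots_le (G := G) (f (dom m)).2.1
      have hval : ((Fin.ofNat (Fintype.card G.E + 1) (i + 1) : Fin (Fintype.card G.E + 1)) : ℕ) = i + 1 := by
        rw [Fin.val_ofNat, Nat.mod_eq_of_lt (by omega)]
      refine ih _ _ (by rw [hval]; omega) ?_
      rw [hval, hs, ← List.take_append_getElem hi, List.map_append, List.sum_append, List.map_singleton,
        List.sum_singleton]
  have hpos := slots_pos (G := G) (f (dom m)).2.1
  obtain ⟨j, hj⟩ : ∃ j, (slots (f (dom m)).2.1).length = j + 1 := ⟨_, (Nat.succ_pred_eq_of_pos hpos).symm⟩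
  exact inner j 0 0 (by rw [hj]; simp) (by simp)

/-- A graph whose root can be pebbled with `q` pebbles is evaluated by a branching program with at most
`((|V| + 1) k)^(q-1) k (|E| + 2)` states which inspects one cell for every source and one for every edge at most. -/
theorem pebble_program [Fintype A] (q : ℕ) (hq : G.Pebbles q) :
    ∃ N ≤ ((Fintype.card G.V + 1) * Fintype.card A) ^ (q - 1) * (Fintype.card A * (Fintype.card G.E + 2)),
      ∃ B : BP (G.Cell A) A N, ∀ I : G.Cell A → A, B.Outputs I (G.val I G.root) ∧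
        Nat.card {c // B.Asks I c} ≤ Fintype.card G.Src + Fintype.card G.E := by
  classical
  obtain ⟨f, hf⟩ := exists_strategy (G := G) (q - 1)
  obtain ⟨B, hB⟩ := exists_BP (act (A := A) f (q - 1)) (Sum.inl (enc (q - 1) ∅ 0, 0, 0))
  refine ⟨_, ?_, B, fun I => ?_⟩
  · have hk : 1 ≤ Fintype.card A := Fintype.card_pos
    rw [Fintype.card_sum, Fintype.card_prod, Fintype.card_prod, Fintype.card_fin, Fintype.card_fun,
      Fintype.card_fin, Fintype.card_option, Fintype.card_prod]
    have h1 : (Fintype.card G.V * Fintype.card A + 1) ^ (q - 1) ≤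
        ((Fintype.card G.V + 1) * Fintype.card A) ^ (q - 1) :=
      Nat.pow_le_pow_left (by nlinarith) _
    have h2 : 1 ≤ ((Fintype.card G.V + 1) * Fintype.card A) ^ (q - 1) :=
      Nat.one_le_pow _ _ (by positivity)
    calc (Fintype.card G.V * Fintype.card A + 1) ^ (q - 1) * (Fintype.card A * (Fintype.card G.E + 1)) +
          Fintype.card A
        ≤ ((Fintype.card G.V + 1) * Fintype.card A) ^ (q - 1) * (Fintype.card A * (Fintype.card G.E + 1)) +
          ((Fintype.card G.V + 1) * Fintype.card A) ^ (q - 1) * Fintype.card A :=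
          Nat.add_le_add (Nat.mul_le_mul_right _ h1) (Nat.le_mul_of_pos_left _ h2)
      _ = _ := by ring
  · have hdom : dom (enc (A := A) (q - 1) (∅ : Finset G.V) 0) = ∅ := dom_enc (by simp) _
    have hg := good_main hf I _ (enc (q - 1) ∅ 0) rfl (by rw [hdom]; exact live_empty hq)
      (by rw [hdom]; exact fun v hv => absurd hv (Finset.notMem_empty _))
    obtain ⟨h1, h2⟩ := hB I _ _ hg
    refine ⟨h1, ?_⟩
    have h3 : Nat.card {c // B.Asks I c} ≤ Nat.card G.Slot :=
      Nat.card_le_card_of_injective (fun c => (h2 c.1 c.2).choose) (fun c c' h => by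
        have e1 := (h2 c.1 c.2).choose_spec
        have e2 := (h2 c'.1 c'.2).choose_spec
        rw [Subtype.ext_iff, ← e1, ← e2]
        exact congrArg _ h)
    have h4 : Nat.card G.Slot = Fintype.card G.Src + Fintype.card G.E := by
      rw [Nat.card_eq_fintype_card, Fintype.card_sum]
    exact h3.trans_eq h4

/-- The same with a slightly larger bound: at most `((|V| + 1) k)^q (|E| + 2)` states. -/
theorem pebble_program' [Fintype A] (q : ℕ) (hq : G.Pebbles q) :
    ∃ N ≤ ((Fintype.card G.V + 1) * Fintype.card A) ^ q * (Fintype.card G.E + 2),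
      ∃ B : BP (G.Cell A) A N, ∀ I : G.Cell A → A, B.Outputs I (G.val I G.root) ∧
        Nat.card {c // B.Asks I c} ≤ Fintype.card G.Src + Fintype.card G.E := by
  obtain ⟨N, hN, h⟩ := pebble_program (A := A) q hq
  refine ⟨N, hN.trans ?_, h⟩
  have h1 := pos_of_pebbles hq
  obtain ⟨r, rfl⟩ : ∃ r, q = r + 1 := ⟨q - 1, by omega⟩
  rw [Nat.add_sub_cancel, pow_succ]
  calc ((Fintype.card G.V + 1) * Fintype.card A) ^ r * (Fintype.card A * (Fintype.card G.E + 2))
      = (((Fintype.card G.V + 1) * Fintype.card A) ^ r * (1 * Fintype.card A)) * (Fintype.card G.E + 2) := by ring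
    _ ≤ _ := Nat.mul_le_mul_right _ (Nat.mul_le_mul_left _ (Nat.mul_le_mul_right _ (by omega)))

end program

end Pool.Agent.Helper98.IP
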